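import Mathlib
import Pool.Agent.H13.SignedDefs
import Pool.Agent.H13.SignedMain

namespace Pool.Agent.Results.MP_ec0d67_nt.SignedPartSums

/-- Full (positive) answer to Q1: for every `n ≥ 0` both `S(7n)` and `S(7n+5)` are divisible by 7. -/
theorem result : ∀ n : ℕ, (7 : ℤ) ∣ S (7 * n) ∧ (7 : ℤ) ∣ S (7 * n + 5) :=
  fun n => ⟨main _ (by omega), main _ (by omega)⟩

end Pool.Agent.Results.MP_ec0d67_nt.SignedPartSums
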